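import Pool.Agent.H46.EXC.Stmts

/-!
# EXC, row ENE: edges between the classes of two coordinates
-/

set_option autoImplicit false

namespace Pool.EXC

open Finset Pool.Agent.H98.ABCR Pool.SHA Pool.ABY Pool.VIO

namespace ENE

lemma un_mul {q a b : ℕ} (ha : a.Coprime q) (hb : b.Coprime q) :
    un q (a * b) = un q a * un q b := by
  unfold un
  rw [dif_pos (Nat.Coprime.mul_left ha hb), dif_pos ha, dif_pos hb]
  apply Units.ext
  rw [Units.val_mul, ZMod.coe_unitOfCoprime, ZMod.coe_unitOfCoprime, ZMod.coe_unitOfCoprime]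
  push_cast
  ring

lemma sys (q : ℕ) : Sys (Sml q) where
  one := by
    intro r hr
    refine ⟨1, 1, one_pos, one_pos, Nat.coprime_one_left q, Nat.coprime_one_left q, ?_, ?_, ?_⟩
    · simpa using hr
    · simpa using hr
    · rw [mul_inv_cancel]
  inv := by
    rintro r g ⟨N, D, h1, h2, h3, h4, h5, h6, rfl⟩
    exact ⟨D, N, h2, h1, h4, h3, h6, h5, by rw [mul_inv, inv_inv, mul_comm]⟩
  mul := by
    rintro r s g h ⟨N, D, h1, h2, h3, h4, h5, h6, rfl⟩ ⟨N', D', h1', h2', h3', h4', h5', h6', rfl⟩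
    have e1 : Real.log ((N * N' : ℕ) : ℝ) = Real.log N + Real.log N' := by
      push_cast
      exact Real.log_mul (by positivity) (by positivity)
    have e2 : Real.log ((D * D' : ℕ) : ℝ) = Real.log D + Real.log D' := by
      push_cast
      exact Real.log_mul (by positivity) (by positivity)
    refine ⟨N * N', D * D', Nat.mul_pos h1 h1', Nat.mul_pos h2 h2', Nat.Coprime.mul_left h3 h3',
      Nat.Coprime.mul_left h4 h4', ?_, ?_, ?_⟩
    · rw [e1]; exact add_le_add h5 h5'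
    · rw [e2]; exact add_le_add h6 h6'
    · rw [un_mul h3 h3', un_mul h4 h4', mul_inv]
      exact mul_mul_mul_comm _ _ _ _

lemma sml_mono (q : ℕ) {r s : ℝ} (h : r ≤ s) : Sml q r ⊆ Sml q s := by
  rintro u ⟨N, D, h1, h2, h3, h4, h5, h6, h7⟩
  exact ⟨N, D, h1, h2, h3, h4, h5.trans h, h6.trans h, h7⟩

lemma en_mono (q : ℕ) (A : Finset ℕ) (f : ℕ → (ZMod q)ˣ) (s : ℕ) {r r' : ℝ} (h : r ≤ r') :
    En (Sml q) A f s r ≤ En (Sml q) A f s r' := by
  classical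
  unfold En EnS
  apply Finset.card_le_card
  intro w hw
  rw [Finset.mem_filter] at hw ⊢
  exact ⟨hw.1, sml_mono q h hw.2⟩

/-- the pairs of one side -/
lemma side {n : ℕ} (hn : 1 ≤ n) (hTRE : S_TRE) (hNEX : S_NEX) {q : ℕ} {X P ε1 ε2 C ρ : ℝ}
    {A r : Fin n → ℝ} {E : Fin n → Finset ℕ} (hX : 3 ≤ X) (hP : 1 ≤ P) (hε1 : 0 ≤ ε1)
    (hε2 : 0 ≤ ε2) (hC : 1 ≤ C) (hA : ∀ k, 1 ≤ A k) (hAX : ∏ k, A k ≤ X ^ 2) (hρ : 0 ≤ ρ)
    (hr : ∀ k, 6 * n * ρ ≤ r k)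
    (hD : ∀ k (s : ℕ) (Z : ℝ), 1 ≤ Z → Z ^ s ≤ X ^ 6 → s ≤ 6 * n →
      (En (Sml q) (Cls q Z (E k)) (un q) s (r k) : ℝ) ≤
        P * X ^ ε1 * ((Cls q Z (E k)).card : ℝ) ^ s)
    (hCN : ∀ k, ((Cls q (A k) (E k)).card : ℝ) ≤ C * (A k) ^ (1 + ε2))
    (Pf : Finset ((Fin n → ℕ) × (Fin n → ℕ)))
    (hPf : ∀ w ∈ Pf, (∀ k, w.1 k ∈ Cls q (A k) (E k)) ∧ (∀ k, w.2 k ∈ Cls q (A k) (E k)) ∧
      (∏ k, un q (w.1 k)) * (∏ k, un q (w.2 k))⁻¹ ∈ Sml q ρ) :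
    (Pf.card : ℝ) ≤ P * X ^ ε1 * C ^ n * X ^ (2 * ε2) * ∏ k, A k := by
  classical
  have hX0 : 0 < X := by linarith
  have hX1 : 1 ≤ X := by linarith
  have hL : 0 < Real.log X := Real.log_pos (by linarith)
  have hA0 : ∀ k, 0 < A k := fun k => one_pos.trans_le (hA k)
  obtain ⟨d, hd1, hd2⟩ := hNEX n (fun k => Real.log (A k) / Real.log X) hn
    (fun k => div_nonneg (Real.log_nonneg (hA k)) hL.le) (by
      rw [← Finset.sum_div, div_le_iff₀ hL, ← Real.log_prod (fun k _ => (hA0 k).ne')]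
      calc Real.log (∏ k, A k) ≤ Real.log (X ^ 2) :=
            Real.log_le_log (Finset.prod_pos fun k _ => hA0 k) hAX
        _ = 2 * Real.log X := by rw [Real.log_pow]; push_cast; ring)
  -- the energy at the root
  have hroot : (Pf.card : ℝ) ≤ (En (Sml q) (Fintype.piFinset fun k => Cls q (A k) (E k))
      (fun y => ∏ k, un q (y k)) 1 ρ : ℝ) := by
    have h1 : Pf.card ≤ En (Sml q) (Fintype.piFinset fun k => Cls q (A k) (E k))
        (fun y => ∏ k, un q (y k)) 1 ρ := by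
      unfold En
      refine Finset.card_le_card_of_injOn
        (fun w => ((fun _ : Fin 1 => w.1), (fun _ : Fin 1 => w.2))) ?_ ?_
      · intro w hw
        obtain ⟨t1, t2, t3⟩ := hPf w hw
        unfold EnS
        simp only [Finset.coe_filter, Set.mem_setOf_eq, Finset.mem_product,
          Fintype.mem_piFinset, Finset.univ_unique, Fin.default_eq_zero, Fin.isValue,
          Finset.prod_const, Finset.card_singleton, pow_one]
        exact ⟨⟨fun _ k => t1 k, fun _ k => t2 k⟩, t3⟩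
      · intro w _ w' _ h
        simp only [Prod.mk.injEq] at h
        exact Prod.ext (congrFun h.1 0) (congrFun h.2 0)
    exact_mod_cast h1
  have htre := hTRE (ZMod q)ˣ (Sml q) (sys q) ℕ n (fun k => Cls q (A k) (E k)) (fun _ => un q) d ρ
    hρ hd1
  set Q : ℝ := P * X ^ ε1 with hQ
  have hXe : 1 ≤ X ^ ε1 := Real.one_le_rpow hX1 hε1
  have hQ1 : 1 ≤ Q := by
    rw [hQ]
    nlinarith
  have hQ0 : 0 < Q := by linarith
  have hfac : ∀ k, (En (Sml q) (Cls q (A k) (E k)) (un q) (2 ^ d k) (2 ^ d k * ρ) : ℝ) ^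
      ((1 / 2 : ℝ) ^ d k) ≤ Q ^ ((1 / 2 : ℝ) ^ d k) * ((Cls q (A k) (E k)).card : ℝ) := by
    intro k
    obtain ⟨g1, g2⟩ := hd2 k
    have g2' : 2 ^ d k ≤ 6 * n := by exact_mod_cast g2
    have g3 : (2 : ℝ) ^ d k * ρ ≤ r k := (mul_le_mul_of_nonneg_right g2 hρ).trans (hr k)
    have g4 : (A k) ^ (2 ^ d k) ≤ X ^ 6 := by
      rw [← Real.log_le_log_iff (pow_pos (hA0 k) _) (by positivity), Real.log_pow, Real.log_pow]
      rw [← mul_div_assoc, div_le_iff₀ hL] at g1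
      push_cast
      exact g1
    have g5 : (En (Sml q) (Cls q (A k) (E k)) (un q) (2 ^ d k) (2 ^ d k * ρ) : ℝ) ≤
        Q * ((Cls q (A k) (E k)).card : ℝ) ^ (2 ^ d k) := by
      refine le_trans ?_ (hD k (2 ^ d k) (A k) (hA k) g4 g2')
      exact_mod_cast en_mono q _ _ _ g3
    have hc0 : (0 : ℝ) ≤ ((Cls q (A k) (E k)).card : ℝ) := Nat.cast_nonneg _
    calc (En (Sml q) (Cls q (A k) (E k)) (un q) (2 ^ d k) (2 ^ d k * ρ) : ℝ) ^
          ((1 / 2 : ℝ) ^ d k) ≤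
          (Q * ((Cls q (A k) (E k)).card : ℝ) ^ (2 ^ d k)) ^ ((1 / 2 : ℝ) ^ d k) :=
            Real.rpow_le_rpow (Nat.cast_nonneg _) g5 (by positivity)
      _ = Q ^ ((1 / 2 : ℝ) ^ d k) *
          (((Cls q (A k) (E k)).card : ℝ) ^ (2 ^ d k)) ^ ((1 / 2 : ℝ) ^ d k) :=
            Real.mul_rpow hQ0.le (by positivity)
      _ = Q ^ ((1 / 2 : ℝ) ^ d k) * ((Cls q (A k) (E k)).card : ℝ) := by
            congr 1
            rw [← Real.rpow_natCast, ← Real.rpow_mul hc0]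
            have : (((2 ^ d k : ℕ)) : ℝ) * (1 / 2 : ℝ) ^ d k = 1 := by
              push_cast
              rw [← mul_pow]
              norm_num
            rw [this, Real.rpow_one]
  have hprod : (En (Sml q) (Fintype.piFinset fun k => Cls q (A k) (E k))
      (fun y => ∏ k, un q (y k)) 1 ρ : ℝ) ≤ Q * ∏ k, ((Cls q (A k) (E k)).card : ℝ) := by
    refine htre.trans ?_
    calc ∏ k, (En (Sml q) (Cls q (A k) (E k)) (un q) (2 ^ d k) (2 ^ d k * ρ) : ℝ) ^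
          ((1 / 2 : ℝ) ^ d k) ≤
          ∏ k, (Q ^ ((1 / 2 : ℝ) ^ d k) * ((Cls q (A k) (E k)).card : ℝ)) :=
            Finset.prod_le_prod (fun k _ => Real.rpow_nonneg (Nat.cast_nonneg _) _)
              fun k _ => hfac k
      _ = Q ^ (∑ k, (1 / 2 : ℝ) ^ d k) * ∏ k, ((Cls q (A k) (E k)).card : ℝ) := by
            rw [Finset.prod_mul_distrib, Real.rpow_sum_of_pos hQ0]
      _ ≤ Q * ∏ k, ((Cls q (A k) (E k)).card : ℝ) := by
            refine mul_le_mul_of_nonneg_right ?_ (Finset.prod_nonneg fun k _ => Nat.cast_nonneg _)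
            calc Q ^ (∑ k, (1 / 2 : ℝ) ^ d k) ≤ Q ^ (1 : ℝ) :=
                  Real.rpow_le_rpow_of_exponent_le hQ1 hd1
              _ = Q := Real.rpow_one _
  have hPA0 : 0 < ∏ k, A k := Finset.prod_pos fun k _ => hA0 k
  have hcnt : ∏ k, ((Cls q (A k) (E k)).card : ℝ) ≤ C ^ n * X ^ (2 * ε2) * ∏ k, A k := by
    calc ∏ k, ((Cls q (A k) (E k)).card : ℝ) ≤ ∏ k, (C * (A k) ^ (1 + ε2)) :=
          Finset.prod_le_prod (fun k _ => Nat.cast_nonneg _) fun k _ => hCN k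
      _ = C ^ n * (∏ k, A k) ^ (1 + ε2) := by
          rw [Finset.prod_mul_distrib, Finset.prod_const, Finset.card_univ, Fintype.card_fin,
            Real.finset_prod_rpow _ _ (fun k _ => (hA0 k).le)]
      _ = C ^ n * ((∏ k, A k) ^ ε2 * ∏ k, A k) := by
          rw [add_comm 1 ε2, Real.rpow_add hPA0, Real.rpow_one]
      _ ≤ C ^ n * (X ^ (2 * ε2) * ∏ k, A k) := by
          have h1 : (∏ k, A k) ^ ε2 ≤ X ^ (2 * ε2) := by
            calc (∏ k, A k) ^ ε2 ≤ (X ^ 2) ^ ε2 := Real.rpow_le_rpow hPA0.le hAX hε2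
              _ = X ^ (2 * ε2) := by
                rw [← Real.rpow_natCast, ← Real.rpow_mul hX0.le]
                norm_num
          have h2 : 0 < C ^ n := pow_pos (by linarith) _
          gcongr
      _ = C ^ n * X ^ (2 * ε2) * ∏ k, A k := by ring
  calc (Pf.card : ℝ) ≤ Q * ∏ k, ((Cls q (A k) (E k)).card : ℝ) := hroot.trans hprod
    _ ≤ Q * (C ^ n * X ^ (2 * ε2) * ∏ k, A k) := mul_le_mul_of_nonneg_left hcnt hQ0.le
    _ = P * X ^ ε1 * C ^ n * X ^ (2 * ε2) * ∏ k, A k := by rw [hQ]; ring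

end ENE

open ENE in
/-- **ENE**. -/
theorem ene_thm (hGRA : S_GRA) (hTRE : S_TRE) (hNEX : S_NEX) (hDIS : S_DIS) (hCNT : S_CNT) :
    S_ENE := by
  classical
  intro c ε C0 hc hc1 hε hε1 hC0
  obtain ⟨ζ, τ, hζ, hζ1, hτ, hτ1, hdis⟩ := hDIS c (ε / 4) C0 hc hc1 (by linarith) (by linarith) hC0
  refine ⟨ζ, τ, hζ, hζ1, hτ, hτ1, ?_⟩
  intro n L e hn he
  have hex : ∀ k : Fin n, ∃ κ0 X0 : ℝ, 1 ≤ κ0 ∧ 3 ≤ X0 ∧
    ∀ (X h0 Z : ℝ) (T : Finset ℕ) (x : ℕ → ℕ) (E : Finset ℕ) (s : ℕ), X0 ≤ X →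
      κ0 * Real.log X ≤ h0 → 1 ≤ Z → Z ^ s ≤ X ^ 6 → s ≤ 6 * n → E.card ≤ L →
      (∀ t ∈ T, t.Prime ∧ 1 ≤ x t) →
      c * h0 ≤ ∑ t ∈ T, (x t : ℝ) * Real.log t → ∑ t ∈ T, (x t : ℝ) * Real.log t ≤ 2 * h0 →
      (∀ j ∈ E, e k * (h0 / Real.log X) ≤ j ∧ (j : ℝ) ≤ (1 + ζ) * e k * (h0 / Real.log X)) →
      (En (Sml (∏ t ∈ T, t ^ x t)) (Cls (∏ t ∈ T, t ^ x t) Z E) (un (∏ t ∈ T, t ^ x t)) s
        (τ * e k * h0) : ℝ) ≤
        ((∏ t ∈ T, t : ℕ) : ℝ) * X ^ (ε / 4) * ((Cls (∏ t ∈ T, t ^ x t) Z E).card : ℝ) ^ s :=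
    fun k => hdis (e k) (6 * n) L (he k).1 (he k).2
  choose κk Xk hκk hXk hbk using hex
  obtain ⟨C, hC, hcnt⟩ := hCNT L (ε / 8) (by linarith)
  have hCn : 1 ≤ C ^ n := one_le_pow₀ hC
  have hsκ : ∀ k, κk k ≤ 1 + ∑ k, κk k := fun k => by
    have := Finset.single_le_sum (f := κk) (fun k _ => by linarith [hκk k]) (Finset.mem_univ k)
    linarith
  have hsX : ∀ k, Xk k ≤ 3 + (C ^ n) ^ (2 / ε) + ∑ k, Xk k := fun k => by
    have := Finset.single_le_sum (f := Xk) (fun k _ => by linarith [hXk k]) (Finset.mem_univ k)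
    have h2 : 0 ≤ (C ^ n) ^ (2 / ε) := Real.rpow_nonneg (by linarith) _
    linarith
  have hs1 : 0 ≤ ∑ k, κk k := Finset.sum_nonneg fun k _ => by linarith [hκk k]
  have hs2 : 0 ≤ ∑ k, Xk k := Finset.sum_nonneg fun k _ => by linarith [hXk k]
  have hs3 : 0 ≤ (C ^ n) ^ (2 / ε) := Real.rpow_nonneg (by linarith) _
  refine ⟨1 + ∑ k, κk k, 3 + (C ^ n) ^ (2 / ε) + ∑ k, Xk k, by linarith, by linarith, ?_⟩
  intro X h0 ρ T x E A B W hX hh hT hlo hup hE hAB hAX hBX hρ hρr hW hr1 hr2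
  have hX3 : 3 ≤ X := by linarith
  have hX0 : 0 < X := by linarith
  have hX1 : 1 ≤ X := by linarith
  have hL : 0 < Real.log X := Real.log_pos (by linarith)
  have hA0 : ∀ k, 0 < A k := fun k => one_pos.trans_le (hAB k).1
  have hB0 : ∀ k, 0 < B k := fun k => one_pos.trans_le (hAB k).2
  have hP1 : (1 : ℝ) ≤ ((∏ t ∈ T, t : ℕ) : ℝ) := by
    have : 0 < ∏ t ∈ T, t := Finset.prod_pos fun t ht => (hT t ht).1.pos
    exact_mod_cast this
  have hD : ∀ k (s : ℕ) (Z : ℝ), 1 ≤ Z → Z ^ s ≤ X ^ 6 → s ≤ 6 * n →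
      (En (Sml (∏ t ∈ T, t ^ x t)) (Cls (∏ t ∈ T, t ^ x t) Z (E k)) (un (∏ t ∈ T, t ^ x t)) s
        (τ * e k * h0) : ℝ) ≤
        ((∏ t ∈ T, t : ℕ) : ℝ) * X ^ (ε / 4) *
          ((Cls (∏ t ∈ T, t ^ x t) Z (E k)).card : ℝ) ^ s := by
    intro k s Z hZ hZs hs
    exact hbk k X h0 Z T x (E k) s ((hsX k).trans hX)
      ((mul_le_mul_of_nonneg_right (hsκ k) hL.le).trans hh) hZ hZs hs (hE k).1 hT hlo hup (hE k).2
  set q := ∏ t ∈ T, t ^ x t with hq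
  set PA : Finset ((Fin n → ℕ) × (Fin n → ℕ)) :=
    ((Fintype.piFinset fun k => Cls q (A k) (E k)) ×ˢ
      (Fintype.piFinset fun k => Cls q (A k) (E k))).filter
      (fun w => (∏ k, un q (w.1 k)) * (∏ k, un q (w.2 k))⁻¹ ∈ Sml q ρ) with hPA
  set PB : Finset ((Fin n → ℕ) × (Fin n → ℕ)) :=
    ((Fintype.piFinset fun k => Cls q (B k) (E k)) ×ˢ
      (Fintype.piFinset fun k => Cls q (B k) (E k))).filter
      (fun w => (∏ k, un q (w.1 k)) * (∏ k, un q (w.2 k))⁻¹ ∈ Sml q ρ) with hPB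
  have hgra := hGRA (Fin n → ℕ) (Fin n → ℕ) W PA PB
    (by
      intro y y' z h1 h2
      rw [hPA, Finset.mem_filter, Finset.mem_product, Fintype.mem_piFinset,
        Fintype.mem_piFinset]
      exact ⟨⟨fun k => (hW _ h1 k).1, fun k => (hW _ h2 k).1⟩, hr1 y y' z h1 h2⟩)
    (by
      intro y z z' h1 h2
      rw [hPB, Finset.mem_filter, Finset.mem_product, Fintype.mem_piFinset,
        Fintype.mem_piFinset]
      exact ⟨⟨fun k => (hW _ h1 k).2, fun k => (hW _ h2 k).2⟩, hr2 y z z' h1 h2⟩)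
  have bA := side hn hTRE hNEX (q := q) (r := fun k => τ * e k * h0) (ε1 := ε / 4) (ε2 := ε / 8)
    (C := C) (ρ := ρ) (A := A) (E := E) hX3 hP1 (by linarith) (by linarith) hC
    (fun k => (hAB k).1) hAX hρ hρr hD
    (fun k => hcnt q (A k) (E k) (hAB k).1 (hE k).1) PA (by
      intro w hw
      rw [hPA, Finset.mem_filter, Finset.mem_product, Fintype.mem_piFinset,
        Fintype.mem_piFinset] at hw
      exact ⟨hw.1.1, hw.1.2, hw.2⟩)
  have bB := side hn hTRE hNEX (q := q) (r := fun k => τ * e k * h0) (ε1 := ε / 4) (ε2 := ε / 8)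
    (C := C) (ρ := ρ) (A := B) (E := E) hX3 hP1 (by linarith) (by linarith) hC
    (fun k => (hAB k).2) hBX hρ hρr hD
    (fun k => hcnt q (B k) (E k) (hAB k).2 (hE k).1) PB (by
      intro w hw
      rw [hPB, Finset.mem_filter, Finset.mem_product, Fintype.mem_piFinset,
        Fintype.mem_piFinset] at hw
      exact ⟨hw.1.1, hw.1.2, hw.2⟩)
  set K : ℝ := ((∏ t ∈ T, t : ℕ) : ℝ) * X ^ (ε / 4) * C ^ n * X ^ (2 * (ε / 8)) with hK
  have hK0 : 0 ≤ K := by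
    rw [hK]
    positivity
  have hPA0 : 0 ≤ ∏ k, A k := Finset.prod_nonneg fun k _ => (hA0 k).le
  have hPB0 : 0 ≤ ∏ k, B k := Finset.prod_nonneg fun k _ => (hB0 k).le
  have hsq : (W.card : ℝ) ^ 2 ≤ K ^ 2 * ((∏ k, A k) * ∏ k, B k) := by
    calc (W.card : ℝ) ^ 2 ≤ (PA.card : ℝ) * PB.card := by exact_mod_cast hgra
      _ ≤ (K * ∏ k, A k) * (K * ∏ k, B k) :=
          mul_le_mul bA bB (Nat.cast_nonneg _) (mul_nonneg hK0 hPA0)
      _ = K ^ 2 * ((∏ k, A k) * ∏ k, B k) := by ring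
  have hW1 : (W.card : ℝ) ≤ K * Real.sqrt ((∏ k, A k) * ∏ k, B k) := by
    have h1 : (W.card : ℝ) = Real.sqrt ((W.card : ℝ) ^ 2) :=
      (Real.sqrt_sq (Nat.cast_nonneg _)).symm
    rw [h1]
    calc Real.sqrt ((W.card : ℝ) ^ 2) ≤ Real.sqrt (K ^ 2 * ((∏ k, A k) * ∏ k, B k)) :=
          Real.sqrt_le_sqrt hsq
      _ = K * Real.sqrt ((∏ k, A k) * ∏ k, B k) := by
          rw [Real.sqrt_mul (sq_nonneg K), Real.sqrt_sq hK0]
  have hCX : C ^ n ≤ X ^ (ε / 2) := by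
    have h1 : (C ^ n) ^ (2 / ε) ≤ X := by linarith
    calc C ^ n = ((C ^ n) ^ (2 / ε)) ^ (ε / 2) := by
          rw [← Real.rpow_mul (by linarith)]
          have : 2 / ε * (ε / 2) = 1 := by field_simp
          rw [this, Real.rpow_one]
      _ ≤ X ^ (ε / 2) := Real.rpow_le_rpow hs3 h1 (by linarith)
  have hKX : K ≤ ((∏ t ∈ T, t : ℕ) : ℝ) * X ^ ε := by
    calc K = ((∏ t ∈ T, t : ℕ) : ℝ) * (X ^ (ε / 4) * C ^ n * X ^ (2 * (ε / 8))) := by
          rw [hK]; ring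
      _ ≤ ((∏ t ∈ T, t : ℕ) : ℝ) * (X ^ (ε / 4) * X ^ (ε / 2) * X ^ (2 * (ε / 8))) := by
          gcongr
      _ = ((∏ t ∈ T, t : ℕ) : ℝ) * X ^ ε := by
          rw [← Real.rpow_add hX0, ← Real.rpow_add hX0]
          congr 2
          ring
  exact hW1.trans (mul_le_mul_of_nonneg_right hKX (Real.sqrt_nonneg _))

end Pool.EXC
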